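import Mathlib
import Pool.Agent.H.MP_8ac0e4_co.Defs
import Pool.Agent.H.MP_0b0399_co.Defs
import Pool.Agent.H.MP_0b0399_co.Main

set_option autoImplicit false

namespace Pool.Agent.Results.MP_0b0399_co.Strong

open Filter Topology Pool.Agent.H.MP_8ac0e4_co Pool.Agent.H.MP_0b0399_co

lemma ar {D a ε δ m p Q L W A : ℝ} (ha : 0 < a) (hD : D ≤ 3 * a) (h0 : 0 ≤ D) (d0 : 0 < δ)
    (d1 : δ ≤ 1) (d2 : 9 * δ ≤ ε) (m0 : 0 ≤ m * (Q * L)) (m1 : 0 ≤ m) (W0 : 0 ≤ W) (A0 : 0 ≤ A)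
    (hp : D * (Q * L) * (1 - δ) ≤ a * p) (hA : p * (m * (1 - δ)) ≤ A)
    (hW : W ≤ (1 + δ) * (m * (Q * L))) : (D / a - ε) * W ≤ A := by
  obtain ⟨c, rfl⟩ : ∃ c, D = c * a := ⟨D / a, by field_simp⟩
  rw [mul_div_cancel_right₀ _ ha.ne']
  have c2 : c ≤ 3 := le_of_mul_le_mul_right hD ha
  have c0 : 0 ≤ c := nonneg_of_mul_nonneg_left h0 ha
  have hp' : c * (Q * L) * (1 - δ) ≤ p := le_of_mul_le_mul_left (by linarith) ha
  rcases le_total (c - ε) 0 with h | h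
  · nlinarith
  have e : (c - ε) * (1 + δ) ≤ c * (1 - δ) ^ 2 := by nlinarith [mul_nonneg c0 (sq_nonneg δ)]
  calc _ ≤ (c - ε) * ((1 + δ) * (m * (Q * L))) := by gcongr
    _ ≤ c * (1 - δ) ^ 2 * (m * (Q * L)) := by rw [← mul_assoc]; gcongr
    _ = c * (Q * L) * (1 - δ) * (m * (1 - δ)) := by ring
    _ ≤ p * (m * (1 - δ)) := mul_le_mul_of_nonneg_right hp' (mul_nonneg m1 (by linarith))
    _ ≤ A := hA

lemma part1 (d : ℕ) (hd : 2 ≤ d) (ε : ℝ) (hε : 0 < ε) :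
    ∀ᶠ k : ℕ in atTop, (2 + 1 / ((d : ℝ) - 1) - ε) * w k d ≤ LaD k d := by
  obtain ⟨e, rfl⟩ : ∃ e, d = e + 2 := ⟨d - 2, by omega⟩
  obtain ⟨δ, d0, d1, d2⟩ : ∃ δ : ℝ, 0 < δ ∧ δ ≤ 1 ∧ 9 * δ ≤ ε :=
    ⟨min 1 (ε / 9), by positivity, min_le_left _ _, by linarith [min_le_right 1 (ε / 9)]⟩
  obtain ⟨L, hL⟩ := exists_nat_ge (((e : ℝ) + 2) / δ)
  obtain ⟨K₀, hK⟩ := exists_nat_ge (2 * ((e : ℝ) + 2) ^ 3 * 2 ^ e / δ)
  rw [div_le_iff₀ d0] at hL hK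
  filter_upwards [eventually_ge_atTop ((K₀ + 1) * (L + 1))] with k hk
  obtain ⟨K, e1⟩ : ∃ K, k / (L + 1) = K₀ + K + 1 :=
    ⟨k / (L + 1) - K₀ - 1, by
      have : K₀ + 1 ≤ k / (L + 1) := (Nat.le_div_iff_mul_le (Nat.succ_pos L)).2 hk
      omega⟩
  have a := Nat.div_add_mod k (L + 1)
  have b : k % (L + 1) < L + 1 := Nat.mod_lt _ (Nat.succ_pos L)
  rw [e1] at a
  obtain ⟨m, p, h1, h2, h3, h4⟩ := fin2 k (K₀ + K) L e (by omega) 
    (by rw [show K₀ + K + 2 = K₀ + K + 1 + 1 from rfl, mul_add_one]; omega)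
  have h5 : (K₀ + K + 2) ^ e ≤ 2 ^ e * (K₀ + K + 1) ^ e := by
    rw [← mul_pow]
    exact Nat.pow_le_pow_left (by omega) _
  replace h2 := h2.trans (Nat.mul_le_mul_right _ (Nat.add_le_add_left
    (Nat.mul_le_mul_left _ h5) _))
  rw [pow_succ] at h1 h2 h3 h4
  generalize (K₀ + K + 1) ^ e = R at *
  generalize (L + 1) ^ e = Q at *
  have g4 : ((p : ℝ) + Q * (L + 1)) * (m - ((e + 2) * (e + 2) + 3) * R) ≤ LaD k (e + 2) := by
    have h6 : ((p : ℝ) + Q * (L + 1)) * (m - ((e + 2) * (e + 2) + 3) * R : ℕ) ≤ LaD k (e + 2) := by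
      exact_mod_cast h4
    refine le_trans (mul_le_mul_of_nonneg_left ?_ (by positivity)) h6
    rw [sub_le_iff_le_add]
    exact_mod_cast le_tsub_add
  have g1 : (R : ℝ) * (K₀ + K + 1) ≤ (e + 2) * m := by exact_mod_cast h1
  have g2 : (w k (e + 2) : ℝ) ≤ (m + (e + 2) * (2 ^ e * R)) * (Q * (L + 1)) := by exact_mod_cast h2
  have g3 : ((e : ℝ) + 2) * (Q * (L + 1)) ≤ (e + 1) * p + (e + 2) * (e + 2) * Q := by
    exact_mod_cast h3
  have t : (1 : ℝ) ≤ 2 ^ e := one_le_pow₀ one_le_two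
  have e0 : (0 : ℝ) ≤ e := Nat.cast_nonneg e
  have g5 : 2 * (((e : ℝ) + 2) * (e + 2) * (2 ^ e * R)) ≤ δ * m := by
    refine le_of_mul_le_mul_left ?_ (show (0 : ℝ) < e + 2 by positivity)
    nlinarith [mul_le_mul_of_nonneg_left g1 d0.le, mul_le_mul_of_nonneg_left hK (Nat.cast_nonneg R),
      show (0 : ℝ) ≤ δ * (R * (K + 1)) by positivity]
  have g6 : (R : ℝ) ≤ 2 ^ e * R := le_mul_of_one_le_left (Nat.cast_nonneg R) t
  push_cast
  rw [show 2 + 1 / ((e : ℝ) + 2 - 1) = (2 * e + 3) / (e + 1) by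
    rw [show (e : ℝ) + 2 - 1 = e + 1 by ring]
    field_simp
    ring]
  refine ar (m := m) (p := p + Q * (L + 1)) (Q := Q) (L := L + 1) (by positivity) (by linarith) (by positivity)
    d0 d1 d2 (by positivity) (by positivity) (by positivity) (by positivity) ?_
    (le_trans (mul_le_mul_of_nonneg_left ?_ (by positivity)) g4) (g2.trans ?_)
  · nlinarith [mul_le_mul_of_nonneg_left hL (show (0 : ℝ) ≤ (e + 2) * Q by positivity),
      show (0 : ℝ) ≤ (e + 2) * Q * δ by positivity,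
      show (0 : ℝ) ≤ (e + 1) * (Q * (L + 1)) * δ by positivity]
  · nlinarith [mul_le_mul_of_nonneg_left g6 (show (0 : ℝ) ≤ (e + 2) * (e + 2) by positivity),
      show (0 : ℝ) ≤ (e * e + 4 * e + 1) * R by positivity]
  · rw [← mul_assoc (1 + δ)]
    refine mul_le_mul_of_nonneg_right ?_ (by positivity)
    nlinarith [show (0 : ℝ) ≤ (e + 2) * (2 * e + 3) * (2 ^ e * R) by positivity]

theorem result :
    (∀ d : ℕ, 2 ≤ d → ∀ ε : ℝ, 0 < ε →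
      ∀ᶠ k : ℕ in atTop, (2 + 1 / ((d : ℝ) - 1) - ε) * w k d ≤ LaD k d) ∧
    ∀ d : ℕ, 2 ≤ d →
      ¬ Tendsto (fun k : ℕ => (LaD k d : ℝ) / w k d) atTop (𝓝 (2 + 1 / (d : ℝ))) := by
  refine ⟨part1, fun d hd h => ?_⟩
  have d3 : (2 : ℝ) ≤ d := by exact_mod_cast hd
  have lt : 2 + 1 / (d : ℝ) < 2 + 1 / (d - 1) :=
    add_lt_add_right (one_div_lt_one_div_of_lt (by linarith) (by linarith)) 2
  obtain ⟨c, c1, c2⟩ := exists_between lt
  obtain ⟨k, h1, h2, h3⟩ := ((h.eventually (gt_mem_nhds c1)).and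
    ((part1 d (by omega) _ (sub_pos.2 c2)).and (eventually_gt_atTop 0))).exists
  obtain ⟨k, rfl⟩ : ∃ k', k = k' + 1 := ⟨k - 1, by omega⟩
  rw [div_lt_iff₀ (by exact_mod_cast w_pos k d)] at h1
  rw [sub_sub_cancel] at h2
  linarith

end Pool.Agent.Results.MP_0b0399_co.Strong
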